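import Pool.Agent.Run7.h565.LJ.Sched
import Pool.Agent.H741R2.LJPoly
import Pool.Agent.NPC.Dec

/-!
# Membership in NP of throughput scheduling
-/

set_option autoImplicit false

namespace Run7.h565.LJ

open Pool.Agent.NPC Pool.Agent.H741R2.LJ
open scoped Classical

/-- the job `i` is on time when it starts at `t i` -/
def OnN (R P : ℕ → ℕ) (D : ℕ → ℤ) (t : ℕ → ℕ) (i : ℕ) : Prop :=
  R i ≤ t i ∧ (t i : ℤ) + P i ≤ D i

/-- there are good integer start times -/
def NatForm (n : ℕ) (R P : ℕ → ℕ) (D : ℕ → ℤ) (W : ℕ → ℕ) (k : ℕ) : Prop :=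
  ∃ t : ℕ → ℕ, (∀ i < n, t i ≤ (D i).natAbs + 1) ∧
    (∀ i < n, ∀ j < n, i ≠ j → OnN R P D t i → OnN R P D t j → t i + P i ≤ t j ∨ t j + P j ≤ t i) ∧
    ∑ i ∈ Finset.range n, (if OnN R P D t i then 0 else W i) ≤ k

theorem natForm_iff (n : ℕ) (R P : ℕ → ℕ) (D : ℕ → ℤ) (W : ℕ → ℕ) (k : ℕ) :
    (∃ S : Fin n → ℝ, IsSchedule (fun j : Fin n => R j) (fun j : Fin n => P j) S ∧
      ∑ j : Fin n with Late (fun j : Fin n => P j) (fun j : Fin n => D j) S j, W j ≤ k) ↔
      NatForm n R P D W k := by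
  have h := core (fun j : Fin n => R j) (fun j : Fin n => P j) (fun j : Fin n => D j)
    (fun X => ∑ j : Fin n with j ∈ X, W j ≤ k)
  simp only [Set.mem_setOf_eq] at h
  rw [h]
  unfold NatForm
  constructor
  · rintro ⟨t, h1, h2, h3⟩
    refine ⟨fun i => if hi : i < n then t ⟨i, hi⟩ else 0, ?_, ?_, ?_⟩
    · intro i hi
      simp only [hi, dif_pos]
      exact h1 ⟨i, hi⟩
    · intro i hi j hj hij a b
      have a' : OnT (fun j : Fin n => R j) (fun j : Fin n => P j) (fun j : Fin n => D j) t ⟨i, hi⟩ := by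
        unfold OnN at a
        simp only [hi, dif_pos] at a
        exact a
      have b' : OnT (fun j : Fin n => R j) (fun j : Fin n => P j) (fun j : Fin n => D j) t ⟨j, hj⟩ := by
        unfold OnN at b
        simp only [hj, dif_pos] at b
        exact b
      have := h2 ⟨i, hi⟩ ⟨j, hj⟩ (fun h => hij (congrArg Fin.val h)) a' b'
      simp only [hi, hj, dif_pos]
      exact this
    · refine le_of_eq_of_le ?_ h3
      rw [Finset.sum_filter, ← Fin.sum_univ_eq_sum_range
        (fun i => if OnN R P D (fun i => if hi : i < n then t ⟨i, hi⟩ else 0) i then 0 else W i)]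
      refine Finset.sum_congr rfl fun j _ => ?_
      have e : OnN R P D (fun i => if hi : i < n then t ⟨i, hi⟩ else 0) j ↔
          OnT (fun j : Fin n => R j) (fun j : Fin n => P j) (fun j : Fin n => D j) t j := by
        unfold OnN OnT
        simp only [j.2, dif_pos]
      by_cases hj : OnT (fun j : Fin n => R j) (fun j : Fin n => P j) (fun j : Fin n => D j) t j
      · rw [if_pos (e.2 hj), if_neg (not_not.2 hj)]
      · rw [if_neg (fun h => hj (e.1 h)), if_pos hj]
  · rintro ⟨t, h1, h2, h3⟩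
    refine ⟨fun j => t j, fun j => h1 j j.2, fun i j hij a b => ?_, ?_⟩
    · exact h2 i i.2 j j.2 (fun h => hij (Fin.ext h)) a b
    · refine le_of_eq_of_le ?_ h3
      rw [Finset.sum_filter, ← Fin.sum_univ_eq_sum_range
        (fun i => if OnN R P D t i then 0 else W i)]
      refine Finset.sum_congr rfl fun j _ => ?_
      have e : OnT (fun j : Fin n => R j) (fun j : Fin n => P j) (fun j : Fin n => D j)
          (fun j : Fin n => t j) j ↔ OnN R P D t j := Iff.rfl
      by_cases hj : OnN R P D t j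
      · rw [if_pos hj, if_neg (not_not.2 (e.2 hj))]
      · rw [if_neg hj, if_pos (fun h => hj (e.1 h))]

/-- an instance of the weighted problem -/
abbrev WI := List (ℕ × ℕ × ℤ × ℕ) × ℕ

/-- the `i`-th job -/
def jb (I : WI) (i : ℕ) : ℕ × ℕ × ℤ × ℕ := I.1.getD i (0, 0, 0, 0)

theorem jb_eq (I : WI) (j : Fin I.1.length) : jb I j = I.1[j] := by
  unfold jb
  simp

/-- the job `i` is on time -/
def onB (I : WI) (w : List ℕ) (i : ℕ) : Bool :=
  decide ((jb I i).1 ≤ w.getD i 0) && decide (((w.getD i 0 : ℕ) : ℤ) + (jb I i).2.1 ≤ (jb I i).2.2.1)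

/-- the verifier -/
def ver (c : ℕ) (x : WI × List ℕ) : Bool :=
  x.1.1.all (fun j => decide (1 ≤ j.2.1) && decide (j.2.1 ≤ c)) &&
  (((List.range x.1.1.length).all fun i => (List.range x.1.1.length).all fun j =>
     decide (i = j) || (!(onB x.1 x.2 i) || (!(onB x.1 x.2 j) ||
       (decide (x.2.getD i 0 + (jb x.1 i).2.1 ≤ x.2.getD j 0) ||
         decide (x.2.getD j 0 + (jb x.1 j).2.1 ≤ x.2.getD i 0))))) &&
  decide (((List.range x.1.1.length).map fun i => bif onB x.1 x.2 i then 0 else (jb x.1 i).2.2.2).sum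
    ≤ x.1.2))

theorem natForm_of {n : ℕ} {R P : ℕ → ℕ} {D : ℕ → ℤ} {W : ℕ → ℕ} {k : ℕ} (t : ℕ → ℕ)
    (h2 : ∀ i < n, ∀ j < n, i ≠ j → OnN R P D t i → OnN R P D t j →
      t i + P i ≤ t j ∨ t j + P j ≤ t i)
    (h3 : ∑ i ∈ Finset.range n, (if OnN R P D t i then 0 else W i) ≤ k) :
    NatForm n R P D W k := by
  set t' : ℕ → ℕ := fun i => if OnN R P D t i then t i else (D i).natAbs + 1 with ht'
  have e1 : ∀ i, OnN R P D t i → t' i = t i := fun i h => if_pos h
  have e2 : ∀ i, ¬ OnN R P D t i → t' i = (D i).natAbs + 1 := fun i h => if_neg h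
  have e3 : ∀ i, OnN R P D t' i ↔ OnN R P D t i := by
    intro i
    by_cases h : OnN R P D t i
    · unfold OnN
      rw [e1 i h]
    · refine ⟨fun h' => ?_, fun h' => absurd h' h⟩
      have := h'.2
      rw [e2 i h] at this
      push_cast at this
      have := le_abs_self (D i)
      omega
  refine ⟨t', fun i _ => ?_, fun i hi j hj hij a b => ?_, ?_⟩
  · by_cases h : OnN R P D t i
    · rw [e1 i h]
      have := h.2
      omega
    · rw [e2 i h]
  · rw [e3] at a b
    rw [e1 i a, e1 j b]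
    exact h2 i hi j hj hij a b
  · simp only [e3]
    exact h3

theorem natForm_congr {n : ℕ} {R P R' P' : ℕ → ℕ} {D D' : ℕ → ℤ} {W W' : ℕ → ℕ} {k : ℕ}
    (hR : ∀ i < n, R i = R' i) (hP : ∀ i < n, P i = P' i) (hD : ∀ i < n, D i = D' i)
    (hW : ∀ i < n, W i = W' i) (h : NatForm n R P D W k) : NatForm n R' P' D' W' k := by
  obtain ⟨t, h1, h2, h3⟩ := h
  have e : ∀ i < n, (OnN R' P' D' t i ↔ OnN R P D t i) := by
    intro i hi
    unfold OnN
    rw [hR i hi, hP i hi, hD i hi]
  refine ⟨t, fun i hi => ?_, fun i hi j hj hij a b => ?_, ?_⟩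
  · rw [← hD i hi]
    exact h1 i hi
  · rw [e i hi] at a
    rw [e j hj] at b
    rw [← hP i hi, ← hP j hj]
    exact h2 i hi j hj hij a b
  · refine le_of_eq_of_le (Finset.sum_congr rfl fun i hi => ?_) h3
    have hi' := Finset.mem_range.1 hi
    simp only [e i hi', hW i hi']

theorem wlate_iff (c : ℕ) (I : WI) : WeightedLateJobs c I ↔
    (∀ j ∈ I.1, 1 ≤ j.2.1 ∧ j.2.1 ≤ c) ∧ NatForm I.1.length (fun i => (jb I i).1)
      (fun i => (jb I i).2.1) (fun i => (jb I i).2.2.1) (fun i => (jb I i).2.2.2) I.2 := by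
  rw [← natForm_iff]
  simp only [jb_eq]
  rfl

theorem late_iff (c : ℕ) (I : List (ℕ × ℕ × ℤ) × ℕ) : LateJobs c I ↔
    WeightedLateJobs c (I.1.map (fun j => (j.1, j.2.1, j.2.2, 1)), I.2) := by
  rw [wlate_iff]
  unfold LateJobs
  refine and_congr ?_ ?_
  · simp only [List.mem_map, forall_exists_index, and_imp, forall_apply_eq_imp_iff₂]
  · have h := natForm_iff I.1.length (fun i => (I.1.getD i (0, 0, 0)).1)
      (fun i => (I.1.getD i (0, 0, 0)).2.1) (fun i => (I.1.getD i (0, 0, 0)).2.2) (fun _ => 1) I.2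
    have e1 : ∀ j : Fin I.1.length, I.1.getD j (0, 0, 0) = I.1[j] := fun j => by simp
    simp only [e1] at h
    have e2 : (∃ S : Fin I.1.length → ℝ, IsSchedule (fun j => I.1[j].1) (fun j => I.1[j].2.1) S ∧
        {j | Late (fun j => I.1[j].2.1) (fun j => I.1[j].2.2) S j}.ncard ≤ I.2) ↔
        (∃ S : Fin I.1.length → ℝ, IsSchedule (fun j => I.1[j].1) (fun j => I.1[j].2.1) S ∧
        ∑ j : Fin I.1.length with Late (fun j => I.1[j].2.1) (fun j => I.1[j].2.2) S j, 1 ≤ I.2) := by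
      refine exists_congr fun S => and_congr_right fun _ => ?_
      rw [Finset.sum_const, smul_eq_mul, mul_one, ← Set.ncard_coe_finset]
      simp
    rw [e2, h]
    have e3 : ∀ i < I.1.length, jb (I.1.map (fun j => (j.1, j.2.1, j.2.2, 1)), I.2) i =
        ((I.1.getD i (0, 0, 0)).1, (I.1.getD i (0, 0, 0)).2.1, (I.1.getD i (0, 0, 0)).2.2, 1) := by
      intro i hi
      unfold jb
      simp [hi]
    have e4 : (I.1.map (fun j => (j.1, j.2.1, j.2.2, 1))).length = I.1.length := by simp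
    simp only [e4]
    constructor
    · refine natForm_congr ?_ ?_ ?_ ?_ <;> intro i hi <;> rw [e3 i hi]
    · refine natForm_congr ?_ ?_ ?_ ?_ <;> intro i hi <;> rw [e3 i hi]

theorem ver_iff (c : ℕ) (I : WI) (w : List ℕ) : ver c (I, w) = true ↔
    (∀ j ∈ I.1, 1 ≤ j.2.1 ∧ j.2.1 ≤ c) ∧
    (∀ i < I.1.length, ∀ j < I.1.length, i ≠ j →
      OnN (fun i => (jb I i).1) (fun i => (jb I i).2.1) (fun i => (jb I i).2.2.1)
        (fun i => w.getD i 0) i →
      OnN (fun i => (jb I i).1) (fun i => (jb I i).2.1) (fun i => (jb I i).2.2.1)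
        (fun i => w.getD i 0) j →
      w.getD i 0 + (jb I i).2.1 ≤ w.getD j 0 ∨ w.getD j 0 + (jb I j).2.1 ≤ w.getD i 0) ∧
    ∑ i ∈ Finset.range I.1.length, (if OnN (fun i => (jb I i).1) (fun i => (jb I i).2.1)
      (fun i => (jb I i).2.2.1) (fun i => w.getD i 0) i then 0 else (jb I i).2.2.2) ≤ I.2 := by
  have e0 : ∀ i, onB I w i = true ↔ OnN (fun i => (jb I i).1) (fun i => (jb I i).2.1)
      (fun i => (jb I i).2.2.1) (fun i => w.getD i 0) i := by
    intro i
    unfold onB OnN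
    simp only [Bool.and_eq_true, decide_eq_true_eq]
  have e1 : ((List.range I.1.length).map fun i => bif onB I w i then 0 else (jb I i).2.2.2).sum =
      ∑ i ∈ Finset.range I.1.length, (if OnN (fun i => (jb I i).1) (fun i => (jb I i).2.1)
      (fun i => (jb I i).2.2.1) (fun i => w.getD i 0) i then 0 else (jb I i).2.2.2) := by
    rw [← List.toFinset_range, List.sum_toFinset _ List.nodup_range]
    congr 1
    refine List.map_congr_left fun i _ => ?_
    by_cases h : onB I w i = true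
    · rw [h, if_pos ((e0 i).1 h)]; rfl
    · rw [if_neg (fun h' => h ((e0 i).2 h'))]
      simp only [Bool.not_eq_true] at h
      rw [h]; rfl
  unfold ver
  simp only
  rw [e1]
  simp only [Bool.and_eq_true, List.all_eq_true, decide_eq_true_eq, List.mem_range, Bool.or_eq_true,
    Bool.not_eq_true', ← Bool.not_eq_true, e0]
  refine and_congr Iff.rfl (and_congr ?_ Iff.rfl)
  refine forall₂_congr fun i _ => forall₂_congr fun j _ => ?_
  tauto

/-! ### polynomial time -/

section poly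

variable {α : Type} [TEnc α]

theorem jb_poly {I : α → WI} {i : α → ℕ} (hI : Poly I) (hi : Poly i) :
    Poly (fun a => jb (I a) (i a)) := Poly.getD (Poly.fst hI) hi (Pool.Agent.NPC.Poly.const _)

theorem onB_poly {I : α → WI} {w : α → List ℕ} {i : α → ℕ} (hI : Poly I) (hw : Poly w)
    (hi : Poly i) : Poly (fun a => onB (I a) (w a) (i a)) := by
  have h1 := jb_poly hI hi
  have h2 : Poly (fun a => (w a).getD (i a) 0) := Poly.getD hw hi (Pool.Agent.NPC.Poly.const _)
  exact Poly.and (Poly.decide_le (Poly.fst h1) h2)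
    (Poly.ile (Poly.iadd (Poly.natCast_int h2) (Poly.natCast_int (Poly.fst (Poly.snd h1))))
      (Poly.fst (Poly.snd (Poly.snd h1))))

theorem ver_poly (c : ℕ) : Poly (ver c) := by
  have hI : Poly (fun x : WI × List ℕ => x.1.1) := Poly.fst (Poly.fst Poly.id)
  have hr : Poly (fun x : WI × List ℕ => List.range x.1.1.length) := Poly.range_length hI
  refine Poly.and (Poly.all (p := fun _ (j : ℕ × ℕ × ℤ × ℕ) => decide (1 ≤ j.2.1) && decide (j.2.1 ≤ c))
    hI (Poly.and (Poly.decide_le (Pool.Agent.NPC.Poly.const _) (Poly.fst (Poly.snd (Poly.snd Poly.id))))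
      (Poly.decide_le (Poly.fst (Poly.snd (Poly.snd Poly.id))) (Pool.Agent.NPC.Poly.const _))))
    (Poly.and ?_ ?_)
  · refine Poly.all (p := fun (x : WI × List ℕ) (i : ℕ) => (List.range x.1.1.length).all fun j =>
     decide (i = j) || (!(onB x.1 x.2 i) || (!(onB x.1 x.2 j) ||
       (decide (x.2.getD i 0 + (jb x.1 i).2.1 ≤ x.2.getD j 0) ||
         decide (x.2.getD j 0 + (jb x.1 j).2.1 ≤ x.2.getD i 0))))) hr ?_
    refine Poly.all (p := fun (y : (WI × List ℕ) × ℕ) (j : ℕ) =>
     decide (y.2 = j) || (!(onB y.1.1 y.1.2 y.2) || (!(onB y.1.1 y.1.2 j) ||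
       (decide (y.1.2.getD y.2 0 + (jb y.1.1 y.2).2.1 ≤ y.1.2.getD j 0) ||
         decide (y.1.2.getD j 0 + (jb y.1.1 j).2.1 ≤ y.1.2.getD y.2 0)))))
      (Poly.comp (g := fun x : WI × List ℕ => List.range x.1.1.length)
        (f := fun y : (WI × List ℕ) × ℕ => y.1) hr (Poly.fst Poly.id)) ?_
    have a1 : Poly (fun z : ((WI × List ℕ) × ℕ) × ℕ => z.1.1.1) :=
      Poly.fst (Poly.fst (Poly.fst Poly.id))
    have a2 : Poly (fun z : ((WI × List ℕ) × ℕ) × ℕ => z.1.1.2) :=
      Poly.snd (Poly.fst (Poly.fst Poly.id))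
    have a3 : Poly (fun z : ((WI × List ℕ) × ℕ) × ℕ => z.1.2) := Poly.snd (Poly.fst Poly.id)
    have a4 : Poly (fun z : ((WI × List ℕ) × ℕ) × ℕ => z.2) := Poly.snd Poly.id
    have g : ∀ {i : ((WI × List ℕ) × ℕ) × ℕ → ℕ}, Poly i →
        Poly (fun z : ((WI × List ℕ) × ℕ) × ℕ => z.1.1.2.getD (i z) 0) := fun hi =>
      Poly.getD a2 hi (Pool.Agent.NPC.Poly.const _)
    exact Poly.or (Poly.decide_eq a3 a4) (Poly.or (Poly.not (onB_poly a1 a2 a3))
      (Poly.or (Poly.not (onB_poly a1 a2 a4)) (Poly.or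
        (Poly.decide_le (Poly.add (g a3) (Poly.fst (Poly.snd (jb_poly a1 a3)))) (g a4))
        (Poly.decide_le (Poly.add (g a4) (Poly.fst (Poly.snd (jb_poly a1 a4)))) (g a3)))))
  · refine Poly.decide_le (Poly.sum (Pool.Agent.NPC.Poly.map (F := fun (x : WI × List ℕ) (i : ℕ) =>
      bif onB x.1 x.2 i then 0 else (jb x.1 i).2.2.2) hr ?_)) (Poly.snd (Poly.fst Poly.id))
    have a1 : Poly (fun z : (WI × List ℕ) × ℕ => z.1.1) := Poly.fst (Poly.fst Poly.id)
    have a2 : Poly (fun z : (WI × List ℕ) × ℕ => z.1.2) := Poly.snd (Poly.fst Poly.id)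
    have a3 : Poly (fun z : (WI × List ℕ) × ℕ => z.2) := Poly.snd Poly.id
    exact Poly.cond (onB_poly a1 a2 a3) (Pool.Agent.NPC.Poly.const _)
      (Poly.snd (Poly.snd (Poly.snd (jb_poly a1 a3))))

end poly

theorem size_succ_le (m : ℕ) : (m + 1).size ≤ m.size + 1 := by
  rw [Nat.size_le, pow_succ]
  have := Nat.lt_size_self m
  have h2 : 0 < 2 ^ m.size := by positivity
  omega

theorem sz_jb {I : WI} {i : ℕ} (hi : i < I.1.length) : sz (jb I i).2.2.1 < sz I.1 := by
  have h1 : jb I i ∈ I.1 := by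
    rw [show jb I i = I.1[i] from jb_eq I ⟨i, hi⟩]
    exact List.getElem_mem hi
  have h2 := sz_le_of_mem h1
  have h3 : sz (jb I i) = sz (jb I i).1 + (sz (jb I i).2.1 + (sz (jb I i).2.2.1 +
      sz (jb I i).2.2.2 + 1) + 1) + 1 := by
    conv_lhs => rw [show jb I i = ((jb I i).1, (jb I i).2.1, (jb I i).2.2.1, (jb I i).2.2.2) from rfl]
    rw [sz_pair, sz_pair, sz_pair]
  omega

/-- the bound for the certificates -/
noncomputable def bd : Polynomial ℕ := Polynomial.X * (Polynomial.C 2 * Polynomial.X + 1) + 1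

theorem cert_of {c : ℕ} {I : WI} (h : WeightedLateJobs c I) :
    ∃ w : List ℕ, sz w ≤ bd.eval (sz I) ∧ ver c (I, w) = true := by
  rw [wlate_iff] at h
  obtain ⟨hc, t, h1, h2, h3⟩ := h
  have e : ∀ i < I.1.length, ((List.range I.1.length).map t).getD i 0 = t i := by
    intro i hi
    simp [hi]
  have b6 : sz I = sz I.1 + sz I.2 + 1 := by
    conv_lhs => rw [show I = (I.1, I.2) from rfl]
    rw [sz_pair]
  refine ⟨(List.range I.1.length).map t, ?_, ?_⟩
  · have h4 := sz_le_length_mul ((List.range I.1.length).map t) (2 * sz I) (by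
      intro a ha
      obtain ⟨i, hi, rfl⟩ := List.mem_map.1 ha
      have hi' := List.mem_range.1 hi
      have b1 := sz_nat_le (t i)
      have b2 : (t i).size ≤ (((jb I i).2.2.1).natAbs + 1).size := Nat.size_le_size (h1 i hi')
      have b3 := size_succ_le ((jb I i).2.2.1).natAbs
      have b4 := size_natAbs_le_sz (jb I i).2.2.1
      have b5 := sz_jb hi'
      omega)
    refine h4.trans ?_
    have b7 := length_lt_sz I.1
    have b8 : ((List.range I.1.length).map t).length ≤ sz I := by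
      simp only [List.length_map, List.length_range]
      omega
    unfold bd
    simp only [Polynomial.eval_add, Polynomial.eval_mul, Polynomial.eval_C, Polynomial.eval_X,
      Polynomial.eval_one]
    exact Nat.add_le_add_right (Nat.mul_le_mul_right _ b8) 1
  · rw [ver_iff]
    have e' : ∀ i < I.1.length, (OnN (fun i => (jb I i).1) (fun i => (jb I i).2.1)
        (fun i => (jb I i).2.2.1) (fun i => ((List.range I.1.length).map t).getD i 0) i ↔
        OnN (fun i => (jb I i).1) (fun i => (jb I i).2.1) (fun i => (jb I i).2.2.1) t i) := by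
      intro i hi
      unfold OnN
      simp only
      rw [e i hi]
    refine ⟨hc, fun i hi j hj hij a b => ?_, ?_⟩
    · rw [e' i hi] at a
      rw [e' j hj] at b
      rw [e i hi, e j hj]
      exact h2 i hi j hj hij a b
    · refine le_of_eq_of_le (Finset.sum_congr rfl fun i hi => ?_) h3
      simp only [e' i (Finset.mem_range.1 hi)]

theorem of_cert {c : ℕ} {I : WI} {w : List ℕ} (h : ver c (I, w) = true) :
    WeightedLateJobs c I := by
  rw [ver_iff] at h
  rw [wlate_iff]
  exact ⟨h.1, natForm_of (fun i => w.getD i 0) h.2.1 h.2.2⟩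

theorem wlate_inNP (c : ℕ) : InNPP (WeightedLateJobs c) :=
  inNPP_of (β := List ℕ) (R := ver c) (ver_poly c) bd fun _ =>
    ⟨fun h => cert_of h, fun ⟨_, _, h⟩ => of_cert h⟩

/-- all weights are `1` -/
def wt1 (I : List (ℕ × ℕ × ℤ) × ℕ) : WI := (I.1.map (fun j => (j.1, j.2.1, j.2.2, 1)), I.2)

theorem wt1_poly : Poly wt1 := by
  unfold wt1
  refine Poly.pair (Pool.Agent.NPC.Poly.map (F := fun _ (j : ℕ × ℕ × ℤ) => (j.1, j.2.1, j.2.2, 1))
    (Poly.fst Poly.id) ?_) (Poly.snd Poly.id)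
  have a : Poly (fun p : (List (ℕ × ℕ × ℤ) × ℕ) × (ℕ × ℕ × ℤ) => p.2) := Poly.snd Poly.id
  exact Poly.pair (Poly.fst a) (Poly.pair (Poly.fst (Poly.snd a))
    (Poly.pair (Poly.snd (Poly.snd a)) (Pool.Agent.NPC.Poly.const _)))

theorem late_inNP (c : ℕ) : InNPP (LateJobs c) := by
  obtain ⟨q, hq⟩ := wt1_poly.sz_le
  refine inNPP_of (β := List ℕ) (R := fun x => ver c (wt1 x.1, x.2))
    (Poly.comp (g := ver c) (f := fun x : (List (ℕ × ℕ × ℤ) × ℕ) × List ℕ => (wt1 x.1, x.2))
      (ver_poly c) (Poly.pair (Poly.comp (g := wt1) wt1_poly (Poly.fst Poly.id))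
        (Poly.snd Poly.id))) (bd.comp q) fun I => ?_
  rw [late_iff]
  constructor
  · intro h
    obtain ⟨w, h1, h2⟩ := cert_of h
    refine ⟨w, h1.trans ?_, h2⟩
    rw [Polynomial.eval_comp]
    exact eval_mono bd (hq I)
  · rintro ⟨w, -, h⟩
    exact of_cert h

end Run7.h565.LJ
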