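import Pool.Agent.H741R2.LJDefs

/-!
# Schedules and integer certificates
-/

set_option autoImplicit false

namespace Run7.h565.LJ

open Pool.Agent.H741R2.LJ

/-- the job `j` is on time when it starts at `t j` -/
def OnT {n : ℕ} (r p : Fin n → ℕ) (d : Fin n → ℤ) (t : Fin n → ℕ) (j : Fin n) : Prop :=
  r j ≤ t j ∧ (t j : ℤ) + p j ≤ d j

/-- Schedules with real start times can be replaced by integer start times of the jobs on time; the
numbers `t j` are small. -/
theorem core {n : ℕ} (r p : Fin n → ℕ) (d : Fin n → ℤ) (Φ : Set (Fin n) → Prop) :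
    (∃ S : Fin n → ℝ, IsSchedule r p S ∧ Φ {j | Late p d S j}) ↔
      ∃ t : Fin n → ℕ, (∀ j, t j ≤ (d j).natAbs + 1) ∧
        (∀ i j, i ≠ j → OnT r p d t i → OnT r p d t j → t i + p i ≤ t j ∨ t j + p j ≤ t i) ∧
        Φ {j | ¬ OnT r p d t j} := by
  classical
  constructor
  · rintro ⟨S, hS, hΦ⟩
    set t : Fin n → ℕ := fun j => if Late p d S j then (d j).natAbs + 1 else ⌊S j⌋₊ with ht
    have hS0 : ∀ j, 0 ≤ S j := fun j => le_trans (Nat.cast_nonneg _) (hS.release j)
    have h1 : ∀ j, Late p d S j → t j = (d j).natAbs + 1 := fun j hj => if_pos hj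
    have h2 : ∀ j, ¬ Late p d S j → t j = ⌊S j⌋₊ := fun j hj => if_neg hj
    have h3 : ∀ j, ¬ Late p d S j ↔ OnT r p d t j := by
      intro j
      constructor
      · intro hj
        refine ⟨?_, ?_⟩
        · rw [h2 j hj]
          exact Nat.le_floor (hS.release j)
        · rw [h2 j hj]
          unfold Late at hj
          push Not at hj
          have h4 : ((⌊S j⌋₊ : ℕ) : ℝ) ≤ S j := Nat.floor_le (hS0 j)
          have h5 : (((⌊S j⌋₊ : ℕ) : ℤ) + (p j : ℤ) : ℤ) ≤ d j := by
            have : ((((⌊S j⌋₊ : ℕ) : ℤ) + (p j : ℤ) : ℤ) : ℝ) ≤ ((d j : ℤ) : ℝ) := by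
              push_cast
              linarith
            exact_mod_cast this
          exact h5
      · rintro ⟨-, h⟩ hj
        rw [h1 j hj] at h
        push_cast at h
        have := le_abs_self (d j)
        omega
    refine ⟨t, fun j => ?_, fun i j hij hi hj => ?_, ?_⟩
    · by_cases hj : Late p d S j
      · rw [h1 j hj]
      · have h4 := ((h3 j).1 hj).2
        omega
    · rw [← h3] at hi hj
      rw [h2 i hi, h2 j hj]
      rcases hS.disjoint i j hij with h | h
      · left
        rw [← Nat.floor_add_natCast (hS0 i)]
        exact Nat.floor_le_floor h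
      · right
        rw [← Nat.floor_add_natCast (hS0 j)]
        exact Nat.floor_le_floor h
    · have : {j | ¬ OnT r p d t j} = {j | Late p d S j} := by
        ext j
        simp only [Set.mem_setOf_eq]
        rw [← h3 j, not_not]
      rw [this]
      exact hΦ
  · rintro ⟨t, -, hd, hΦ⟩
    set M : ℕ := ∑ j, (r j + (d j).natAbs + 1) with hM
    set P : ℕ := ∑ j, p j with hP
    have hrM : ∀ j, r j + (d j).natAbs + 1 ≤ M := fun j =>
      Finset.single_le_sum (f := fun j => r j + (d j).natAbs + 1) (fun _ _ => Nat.zero_le _)
        (Finset.mem_univ j)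
    have hpP : ∀ j, p j ≤ P := fun j =>
      Finset.single_le_sum (f := fun j => p j) (fun _ _ => Nat.zero_le _) (Finset.mem_univ j)
    set s : Fin n → ℕ := fun j => if OnT r p d t j then t j else M + j * P with hs
    have h1 : ∀ j, OnT r p d t j → s j = t j := fun j hj => if_pos hj
    have h2 : ∀ j, ¬ OnT r p d t j → s j = M + j * P := fun j hj => if_neg hj
    have h3 : ∀ j, Late p d (fun j => (s j : ℝ)) j ↔ ¬ OnT r p d t j := by
      intro j
      change (d j : ℝ) < (s j : ℝ) + (p j : ℝ) ↔ _
      constructor
      · intro h hj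
        rw [h1 j hj] at h
        have h5 : ((t j : ℤ) + (p j : ℤ) : ℤ) ≤ d j := hj.2
        have : ((t j : ℝ) + (p j : ℝ)) ≤ (d j : ℝ) := by exact_mod_cast h5
        linarith
      · intro hj
        rw [h2 j hj]
        have h4 := hrM j
        have h5 : (d j : ℤ) < ((M + j * P + p j : ℕ) : ℤ) := by
          have h6 : M ≤ M + j * P + p j := by
            rw [add_assoc]
            exact Nat.le_add_right _ _
          omega
        have : ((d j : ℤ) : ℝ) < (((M + j * P + p j : ℕ) : ℤ) : ℝ) := by exact_mod_cast h5
        push_cast at this ⊢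
        linarith
    refine ⟨fun j => (s j : ℝ), ⟨fun j => ?_, fun i j hij => ?_⟩, ?_⟩
    · have : r j ≤ s j := by
        by_cases hj : OnT r p d t j
        · rw [h1 j hj]
          exact hj.1
        · rw [h2 j hj]
          have := hrM j
          have : M ≤ M + j * P := Nat.le_add_right _ _
          omega
      exact_mod_cast this
    · have key : s i + p i ≤ s j ∨ s j + p j ≤ s i := by
        by_cases hi : OnT r p d t i <;> by_cases hj : OnT r p d t j
        · rw [h1 i hi, h1 j hj]
          exact hd i j hij hi hj
        · left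
          rw [h1 i hi, h2 j hj]
          have h4 := hi.2
          have h5 := hrM i
          have : M ≤ M + j * P := Nat.le_add_right _ _
          omega
        · right
          rw [h1 j hj, h2 i hi]
          have h4 := hj.2
          have h5 := hrM j
          have : M ≤ M + i * P := Nat.le_add_right _ _
          omega
        · rw [h2 i hi, h2 j hj]
          rcases lt_or_gt_of_ne (fun h => hij (Fin.ext h) : (i : ℕ) ≠ j) with h | h
          · left
            have h4 := hpP i
            have h5 : ((i : ℕ) + 1) * P ≤ j * P := Nat.mul_le_mul_right P h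
            rw [Nat.add_mul, one_mul] at h5
            omega
          · right
            have h4 := hpP j
            have h5 : ((j : ℕ) + 1) * P ≤ i * P := Nat.mul_le_mul_right P h
            rw [Nat.add_mul, one_mul] at h5
            omega
      rcases key with h | h
      · left
        exact_mod_cast h
      · right
        exact_mod_cast h
    · have : {j | Late p d (fun j => (s j : ℝ)) j} = {j | ¬ OnT r p d t j} := by
        ext j
        exact h3 j
      rw [this]
      exact hΦ

end Run7.h565.LJ
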